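import Pool.Agent.MP_c69980_ag.H43.Spec3

/-!
Assembly of the algebraic part.
-/

set_option autoImplicit false

namespace Pool.Agent.MP_c69980_ag.H43

open MvPolynomial H60 Finset

/-- In a simple differential ring the derivatives of a nonzero element generate the unit ideal. -/
lemma Algp_one {F : Subfield ℂ} {R : Subalgebra F ℂ} {D : Der} (hP : Pres D R)
    (hS : Simple R {D}) {u : ℂ} (hu : u ∈ R) (u0 : u ≠ 0) :
    ∃ (h : ℕ) (A : ℕ → ℂ), (∀ j, A j ∈ R) ∧ ∑ j ∈ range h, A j * D^[j] u = 1 := by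
  have hm : ∀ j, D^[j] u ∈ R := by
    intro j
    induction j with
    | zero => exact hu
    | succ j ih => rw [Function.iterate_succ_apply']; exact hP _ ih
  let v : ℕ → R := fun j => ⟨D^[j] u, hm j⟩
  have st : ∀ x ∈ Ideal.span (Set.range v),
      (⟨D x, hP _ x.2⟩ : R) ∈ Ideal.span (Set.range v) := by
    intro x hx
    induction hx using Submodule.span_induction with
    | mem x h =>
      obtain ⟨j, rfl⟩ := h
      exact Ideal.subset_span ⟨j + 1, Subtype.ext (Function.iterate_succ_apply' _ _ _)⟩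
    | zero =>
      have : (⟨D ((0 : R) : ℂ), hP _ (0 : R).2⟩ : R) = 0 := Subtype.ext (by simp)
      rw [this]
      exact zero_mem _
    | add x y _ _ a b =>
      have : (⟨D ((x + y : R) : ℂ), hP _ (x + y).2⟩ : R) =
          ⟨D x, hP _ x.2⟩ + ⟨D y, hP _ y.2⟩ := Subtype.ext (by simp)
      rw [this]
      exact add_mem a b
    | smul c x hx a =>
      have : (⟨D ((c • x : R) : ℂ), hP _ (c • x).2⟩ : R) =
          c * ⟨D x, hP _ x.2⟩ + x * ⟨D c, hP _ c.2⟩ := Subtype.ext (by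
        simp only [smul_eq_mul, MulMemClass.coe_mul, Derivation.leibniz, AddMemClass.coe_add])
      rw [this]
      exact add_mem (Ideal.mul_mem_left _ _ a) (Ideal.mul_mem_right _ _ hx)
  have top : Ideal.span (Set.range v) = ⊤ := by
    refine (hS _ ?_).resolve_left fun e => u0 ?_
    · rintro D' rfl x hx y hy
      have : y = ⟨D' x, hP _ x.2⟩ := Subtype.ext hy
      rw [this]
      exact st x hx
    · have : v 0 ∈ Ideal.span (Set.range v) := Ideal.subset_span ⟨0, rfl⟩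
      rw [e, Ideal.mem_bot] at this
      exact congrArg Subtype.val this
  have one : (1 : R) ∈ Submodule.span R (Set.range v) := by
    change (1 : R) ∈ Ideal.span (Set.range v)
    rw [top]
    trivial
  obtain ⟨c, hc⟩ := Finsupp.mem_span_range_iff_exists_finsupp.1 one
  refine ⟨c.support.sup id + 1, fun j => c j, fun j => (c j).2, ?_⟩
  rw [Finsupp.sum_of_support_subset c (s := range (c.support.sup id + 1))
    (fun j hj => mem_range.2 (Nat.lt_succ_of_le (le_sup (f := id) hj))) (fun i a => a • v i)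
    (fun _ _ => zero_smul _ _)] at hc
  have := congrArg Subtype.val hc
  simpa [v] using this

theorem sAlgp (h1 : SInd) (h2 : SCnt) (h3 : SPres) (h4 : SDimt) (h5 : SAx) (h6 : SKp) (h7 : SVs)
    (h8 : SDs) (h9 : SDsa) (h10 : SHat) (h11 : SO2) (h12 : SO3) (h13 : SUp) : SAlgp := by
  intro t a M w Θ PP k F D p₀ g κ J γ E hG hC hκ hK β hβ
  obtain ⟨n, lam, δ, hA⟩ := h5 t a M w Θ PP k F D p₀ g hG hC
  obtain ⟨le, eFL, alg, hC', hA'⟩ := h6 t a M w Θ PP k F D p₀ g n lam δ hG hC hA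
  generalize hF' : cst (FL F (Θ p₀)) δ = F' at le eFL alg hC' hA'
  have hcst : cst (FL F' (Θ p₀)) δ = F' := by rw [eFL, hF']
  obtain ⟨hγ, hE⟩ := h10 t a M w Θ PP k F' p₀ n lam δ κ.m J γ E hG hC'.le hA' hcst hK.toTg
  have pres := (h3 t a M w Θ PP k F D p₀ g hG hC.le hC.tan).2.2 hC.mem hC.pres β hβ
  have hQ : eval (co β (Θ p₀)) (dh κ.Q : CP M t) ∈ RA F (co β (Θ p₀)) :=
    ((hκ.cQ.rename _).mono hC.le).eval_mem _
  refine ⟨Algp_one pres.1 (h8 t a M w Θ PP k F D p₀ g hG hC β hβ) hQ ?_, fun c i => ?_, ?_⟩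
  · have : eval _ (dh κ.Q : CP M t) = eval (Θ p₀) κ.Q / _ := eval_dh (y := Θ p₀) hκ.hQ β
    rw [this]
    exact div_ne_zero hK.Qn (pow_ne_zero _ (hβ none).2)
  · refine int_of_val fun V hV => ?_
    have hV1 : ∀ x ∈ LR w β F D (Θ p₀), x ∈ V := fun x hx => hV ⟨x, hx⟩
    have hF : ∀ x ∈ F', x ∈ V := fun x hx =>
      val_int (R := F) V (fun r => hV1 _ (Subring.subset_closure (Or.inl (Or.inl r.2))))
        (alg x hx).isIntegral
    have hV2 : ∀ x ∈ LR w β F' D (Θ p₀), x ∈ V := by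
      refine fun x hx => (Subring.closure_le (t := V.toSubring)).2 ?_ hx
      rintro y ((hy | hy) | ⟨ψ, hψ, rfl⟩)
      · exact hF y hy
      · exact hV1 _ (Subring.subset_closure (Or.inl (Or.inr hy)))
      · exact hV1 _ (Subring.subset_closure (Or.inr ⟨ψ, eFL ▸ hψ, rfl⟩))
    refine (Subring.closure_le (t := V.toSubring)).2 ?_ (hK.pi c i)
    rintro y (hy | ⟨j, φ, hφ, rfl⟩)
    · exact hF y (hC'.le hy)
    · obtain ⟨E', e1, e2⟩ := hE j
      have := h11 t a M w Θ PP k F' D E' p₀ g (γ j) β V hG hC' hβ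
        (h9 t a M w Θ PP k F' D p₀ g hG hC' β hβ) (hγ j)
        ((hK.tan j).congr fun x hx => e1 x (rat_FL k _ hx)) e2 hV2 φ
        (FL_le (hC'.le.trans (le_FL _ _)) (rat_FL _ _) hφ)
      rw [e1 φ hφ] at this
      exact this
  · have hs : gens κ β D (co β (Θ p₀)) ⊆ RA F (co β (Θ p₀)) := by
      rintro u ((rfl | ⟨f, hf, rfl⟩) | ⟨f, hf, rfl⟩)
      · exact hQ
      · exact mul_mem (((hκ.cJ β f hf).2.mono hC.le).eval_mem _)
          (((hκ.cJ β f hf).1.mono hC.le).eval_mem _)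
      · exact mul_mem (((hκ.cJ β f hf).2.mono hC.le).eval_mem _)
          (pres.1 _ (((hκ.cJ β f hf).1.mono hC.le).eval_mem _))
    have hI : Ind F n (Set.range (co β (Θ p₀))) := by
      refine h1.alg F n _ ((h4 t a M w Θ PP k F p₀ n lam δ hG hA.ind
        fun l => ⟨hA.kill l, hA.tan l⟩).mono le_rfl le_rfl fun x hx => ?_)
      have hx' := rat_FL F _ hx
      rw [FL_chart hβ] at hx'
      exact isAlgebraic_algebraMap
        (⟨x, hx'⟩ : Subfield.closure (F ∪ Set.range (co β (Θ p₀)) : Set ℂ))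
    refine h2 F D (CI M t) _ _ n hC.cnt hC.pres pres.1 hs hI fun ξ hξ r hr => ?_
    obtain ⟨ξ', e1, e2⟩ := h13 F F' (CI M t) _ _ r le hC'.cnt inferInstance alg hs ξ hξ hr
    exact h12 t a M w Θ PP k F' D p₀ g n lam δ κ J γ E β hG hC' hA' hcst hκ hK hγ hE hβ
      (h8 t a M w Θ PP k F' D p₀ g hG hC' β hβ)
      (h7 t a M w Θ PP k F' p₀ n lam δ hG hC'.le hC'.cnt hA' β hβ) ξ' e1 r e2

end Pool.Agent.MP_c69980_ag.H43
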